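import Pool.Agent.H348R6.TF4

set_option autoImplicit false

/-!
# Closed and bounding tree forcings exist only at inaccessible cardinals

Let `κ` be an uncountable cardinal, regular or singular.

* If there is a tree forcing on `2^{<κ}` which is `< κ`-closed, `κ^κ`-bounding and `κ⁺`-cc, then `κ`
  is inaccessible.
* If `κ^{<κ} = κ`, then the chain condition is not needed: if there is a tree forcing on `2^{<κ}`
  which is `< κ`-closed and `κ^κ`-bounding, then `κ` is inaccessible.
* For regular `κ` the same holds for arbitrary forcing notions which add a new element of `κ^κ`.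

Idea: in both cases there are at most `κ` possible restrictions of a name `x` to `α < κ`, so the
restriction of `x` to `α` can be coded by an ordinal below `κ`.  If the function sending `α` to this
code is bounded, then some condition leaves fewer than `κ` possibilities for each restriction.  By
closedness, a tree of height `i < κ` of decisions gives `2 ^ |i|` possibilities for the restriction
of `x` to some `α < κ` (induction on `i`, using that `κ` is regular).  If `κ` is singular, then
`< κ`-closedness gives lower bounds for descending sequences of length `κ`, but the trees in such a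
lower bound would have nodes of length `κ`.
-/

namespace Pool.Agent.Results.MP_c1fc37_lc.OnlyInaccessible

open Cardinal Pool.Agent.H348R6.TF

universe u v

/-- `Q` adds a new function from `κ` to `κ`: there is a name `x` such that below each condition
there are two conditions which force different values of `x` at the same argument. -/
def AddsFunction (κ : Cardinal.{u}) (Q : Type v) [Preorder Q] : Prop :=
  ∃ x : FunName κ Q, ∀ p : Q, ∃ α, α < κ.ord ∧ ∃ q : Bool → Q, (∀ b, q b ≤ p) ∧
    ∃ β : Bool → Ordinal.{u}, β false ≠ β true ∧ ∀ b, x.forces (q b) α (β b)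

section

variable {Q : Type v} [Preorder Q] {κ : Cardinal.{u}}

/-- There are at most `κ` possible restrictions of a name to an ordinal below `κ`. -/
def FewVals (κ : Cardinal.{u}) (Q : Type v) [Preorder Q] : Prop :=
  ∀ (x : FunName κ Q) (α : Ordinal.{u}), α < κ.ord → #(AllVals x α) ≤ #(Set.Iio κ.ord)

theorem fewVals_of_cc (hcc : SuccCC κ Q) : FewVals κ Q := fun x α _ => card_allVals hcc x α

theorem fewVals_of_power (hpow : ∀ c < κ, κ ^ c ≤ κ) : FewVals κ Q := by
  intro x α hα
  have hval : ∀ y ∈ AllVals x α, ∀ i : Set.Iio α, y i < κ.ord := by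
    rintro y ⟨r, hr⟩ i
    obtain ⟨q, hq, β, hβ, h⟩ := x.total r i.1 (lt_trans i.2 hα)
    rw [x.unique _ _ _ _ (x.mono _ _ hq _ _ (hr i)) h]
    exact hβ
  have h1 : #(AllVals x α) ≤ #(Set.Iio α → Set.Iio κ.ord) := by
    refine Cardinal.mk_le_of_injective
      (f := fun y i => (⟨y.1 i, hval y.1 y.2 i⟩ : Set.Iio κ.ord)) ?_
    intro y y' h
    refine Subtype.ext (funext fun i => ?_)
    exact congrArg Subtype.val (congrFun h i)
  refine h1.trans ?_
  rw [Cardinal.mk_arrow, Cardinal.mk_Iio_ordinal, Cardinal.mk_Iio_ordinal, Cardinal.card_ord,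
    Cardinal.lift_lift, Cardinal.lift_lift, ← Cardinal.lift_power]
  have h2 : α.card < κ := Cardinal.lt_ord.1 hα
  simpa using Cardinal.lift_le.{u + 1}.2 (hpow _ h2)

theorem exists_code' (hfew : FewVals κ Q) (hκ : 0 < κ) (x : FunName κ Q) (α : Ordinal.{u}) :
    ∃ e : (Set.Iio α → Ordinal.{u}) → Ordinal.{u},
      (∀ y, e y < κ.ord) ∧ (α < κ.ord → Set.InjOn e (AllVals x α)) := by
  classical
  have h0 : (0 : Ordinal.{u}) < κ.ord := by
    rw [Cardinal.lt_ord]
    simpa using hκ
  by_cases hα : α < κ.ord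
  swap
  · exact ⟨fun _ => 0, fun _ => h0, fun h => absurd h hα⟩
  obtain ⟨f⟩ := Cardinal.le_def _ _ |>.1 (hfew x α hα)
  refine ⟨fun y => if h : y ∈ AllVals x α then (f ⟨y, h⟩).1 else 0, ?_, ?_⟩
  · intro y
    by_cases h : y ∈ AllVals x α
    · simp only [h, dite_true]
      exact (f ⟨y, h⟩).2
    · simp only [h, dite_false]
      exact h0
  · intro _ y hy y' hy' h
    simp only [hy, hy', dite_true] at h
    have := f.injective (Subtype.ext h)
    exact congrArg Subtype.val this

/-- If `Q` is `κ^κ`-bounding, some condition leaves fewer than `κ` values below each `α`. -/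
theorem exists_small' (hκ : 0 < κ) [Nonempty Q] (hcl : LtClosed κ Q) (hfew : FewVals κ Q)
    (hb : Bounding κ Q) (x : FunName κ Q) :
    ∃ q : Q, ∀ α, α < κ.ord → #(Vals x q α) < Cardinal.lift.{u + 1} κ := by
  have hE := exists_code' (Q := Q) hfew hκ x
  choose e he_lt he_inj using hE
  let F : FunName κ Q :=
    { forces := fun q α γ => ∃ y, Dec x q α y ∧ γ = e α y
      mono := by
        rintro p q hqp α β ⟨y, hy, rfl⟩
        exact ⟨y, hy.mono hqp, rfl⟩
      unique := by
        rintro p α β γ ⟨y, hy, rfl⟩ ⟨y', hy', rfl⟩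
        rw [hy.unique hy']
      total := by
        intro p α hα
        obtain ⟨q, hq, y, hy⟩ := exists_dec hcl x p α hα
        exact ⟨q, hq, e α y, he_lt α y, y, hy, rfl⟩ }
  obtain ⟨q, _, z, hz, hF⟩ := hb F (Classical.arbitrary Q)
  refine ⟨q, fun α hα => ?_⟩
  have hsub : ∀ y : Vals x q α, y.1 ∈ AllVals x α := fun y => by
    obtain ⟨r, _, hr⟩ := y.2
    exact ⟨r, hr⟩
  have hlt : ∀ y : Vals x q α, e α y.1 < z α := fun y => by
    obtain ⟨r, hrq, hr⟩ := y.2
    exact hF α hα r hrq _ ⟨y.1, hr, rfl⟩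
  have h1 : #(Vals x q α) ≤ #(Set.Iio (z α)) := by
    refine Cardinal.mk_le_of_injective (f := fun y => ⟨e α y.1, hlt y⟩) ?_
    intro y y' h
    exact Subtype.ext (he_inj α hα (hsub y) (hsub y') (congrArg Subtype.val h))
  refine h1.trans_lt ?_
  rw [Cardinal.mk_Iio_ordinal]
  refine Cardinal.lift_lt.2 ?_
  exact Cardinal.lt_ord.1 (hz α hα)

theorem strong_of_bounding (hreg : κ.IsRegular) [Nonempty Q] (hcl : LtClosed κ Q)
    (hfew : FewVals κ Q) (hb : Bounding κ Q) (hadd : AddsFunction κ Q) :
    ∀ c < κ, (2 : Cardinal.{u}) ^ c < κ := by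
  classical
  have hpos : 0 < κ := aleph0_pos.trans_le hreg.aleph0_le
  obtain ⟨x, hnew⟩ := hadd
  obtain ⟨q, hq⟩ := exists_small' hpos hcl hfew hb x
  choose A hA S hS B hB hf using hnew
  have hB' : ∀ p b b', b ≠ b' → B p b ≠ B p b' := by
    intro p b b' hbb
    cases b <;> cases b' <;> simp_all
    exact fun h => hB p h.symm
  let st : (Ordinal.{u} → Bool) → Ordinal.{u} → Q → Q := fun r j p => S p (r j)
  let t : (Ordinal.{u} → Bool) → Ordinal.{u} → Q := fun r j => chain (st r) q j
  have hst : ∀ r j p, st r j p ≤ p := fun r j p => hS p (r j)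
  have ht : ∀ r i, i < κ.ord → t r i ≤ q ∧ ∀ j, j < i → t r i ≤ S (t r j) (r j) :=
    fun r i hi => chain_spec hcl (st r) (hst r) q i hi
  have htc : ∀ r r' i, (∀ j, j < i → r j = r' j) → t r i = t r' i := by
    intro r r' i h
    refine chain_congr _ _ _ _ fun j hj => ?_
    show (fun p => S p (r j)) = fun p => S p (r' j)
    rw [h j hj]
  let ext : (j : Ordinal.{u}) → (Set.Iio j → Bool) → (Ordinal.{u} → Bool) :=
    fun j s k => if h : k < j then s ⟨k, h⟩ else false
  have hliftreg : (Cardinal.lift.{u + 1} κ).IsRegular := hreg.lift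
  have key : ∀ i : Ordinal.{u}, i < κ.ord → #(Set.Iio i → Bool) < Cardinal.lift.{u + 1} κ := by
    intro i
    induction i using WellFoundedLT.induction with
    | _ i ih =>
    intro hi
    let J : Type (u + 1) := Σ j : Set.Iio i, (Set.Iio j.1 → Bool)
    have hcardi : #(Set.Iio i) < Cardinal.lift.{u + 1} κ := by
      rw [Cardinal.mk_Iio_ordinal]
      exact Cardinal.lift_lt.2 (Cardinal.lt_ord.1 hi)
    have hJ : #J < Cardinal.lift.{u + 1} κ := by
      rw [Cardinal.mk_sigma]
      exact Cardinal.sum_lt_of_isRegular hliftreg hcardi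
        (fun j => ih j.1 j.2 (lt_trans j.2 hi))
    let g : J → Ordinal.{u} := fun js => A (t (ext js.1.1 js.2) js.1.1)
    have hg : ∀ js, g js < κ.ord := fun js => hA _
    have hsup : ⨆ js, g js + 1 < κ.ord := by
      refine Ordinal.lift_iSup_add_one_lt_of_lt_cof ?_ hg
      rw [← Ordinal.lift_cof, hreg.cof_ord]
      refine lt_of_le_of_lt (Cardinal.lift_id'.{u, u + 1} #J).le ?_
      simpa using hJ
    set β : Ordinal.{u} := ⨆ js, g js + 1 with hβ
    have hgβ : ∀ js, g js < β := by
      intro js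
      have hbdd : BddAbove (Set.range fun js : J => g js + 1) := by
        refine ⟨κ.ord, ?_⟩
        rintro _ ⟨js, rfl⟩
        exact Order.add_one_le_iff.2 (hg js)
      exact lt_of_lt_of_le (Order.lt_add_one_iff.2 le_rfl) (le_ciSup hbdd js)
    have hdec : ∀ s : Set.Iio i → Bool, ∃ c, c ≤ t (ext i s) i ∧ ∃ y, Dec x c β y :=
      fun s => exists_dec hcl x _ β hsup
    choose c hc y hy using hdec
    have hinj : Function.Injective (fun s : Set.Iio i → Bool =>
        (⟨y s, c s, (hc s).trans (ht _ _ hi).1, hy s⟩ : Vals x q β)) := by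
      intro s s' hss
      have hyy : y s = y s' := congrArg Subtype.val hss
      by_contra hne
      have hex : ∃ k : Set.Iio i, s k ≠ s' k := by
        by_contra hcon
        push Not at hcon
        exact hne (funext hcon)
      obtain ⟨k, hk, hmin⟩ := WellFounded.has_min (wellFounded_lt (α := Set.Iio i))
        {k | s k ≠ s' k} hex
      have hagree : ∀ j, j < k.1 → ext i s j = ext i s' j := by
        intro j hj
        have hji : j < i := lt_trans hj k.2
        simp only [ext, hji, dite_true]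
        by_contra hcon
        exact hmin ⟨j, hji⟩ hcon hj
      have htk : t (ext i s) k.1 = t (ext i s') k.1 := htc _ _ _ hagree
      let u0 : Set.Iio k.1 → Bool := fun j => s ⟨j.1, lt_trans (Set.mem_Iio.1 j.2) (Set.mem_Iio.1 k.2)⟩
      have htu : t (ext k.1 u0) k.1 = t (ext i s) k.1 := by
        refine htc _ _ _ fun j hj => ?_
        have hji : j < i := lt_trans hj k.2
        simp only [ext, hj, hji, dite_true, u0]
      have hAβ : A (t (ext i s) k.1) < β := by
        have := hgβ ⟨k, u0⟩
        simp only [g] at this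
        rwa [htu] at this
      have h1 : x.forces (c s) (A (t (ext i s) k.1)) (B (t (ext i s) k.1) (ext i s k.1)) :=
        x.mono _ _ ((hc s).trans ((ht _ _ hi).2 k.1 k.2)) _ _ (hf _ _)
      have h2 : x.forces (c s') (A (t (ext i s') k.1)) (B (t (ext i s') k.1) (ext i s' k.1)) :=
        x.mono _ _ ((hc s').trans ((ht _ _ hi).2 k.1 k.2)) _ _ (hf _ _)
      rw [← htk] at h2
      have h3 := hy s ⟨_, hAβ⟩
      have h4 := hy s' ⟨_, hAβ⟩
      have h5 := x.unique _ _ _ _ h1 h3
      have h6 := x.unique _ _ _ _ h2 h4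
      rw [← hyy] at h6
      have h7 : ext i s k.1 ≠ ext i s' k.1 := by
        have hki : k.1 < i := k.2
        simp only [ext, hki, dite_true]
        exact hk
      exact hB' _ _ _ h7 (h5.trans h6.symm)
    exact (Cardinal.mk_le_of_injective hinj).trans_lt (hq β hsup)
  intro c hc
  have h := key c.ord (by rw [Cardinal.ord_lt_ord]; exact hc)
  rw [Cardinal.mk_arrow, Cardinal.mk_Iio_ordinal, Cardinal.card_ord] at h
  simp only [Cardinal.mk_bool, Cardinal.lift_ofNat, Cardinal.lift_lift] at h
  have h2 : Cardinal.lift.{u + 1} ((2 : Cardinal.{u}) ^ c) < Cardinal.lift.{u + 1} κ := by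
    simpa using h
  exact Cardinal.lift_lt.1 h2

end

section tree

variable {κ : Cardinal.{u}} {P : Set (Set (Node κ))}

/-- A closed tree forcing adds a new function. -/
theorem adds_of_tree (hk : ℵ₀ ≤ κ) (hP : IsTreeForcing P) (hcl : LtClosed κ P) :
    AddsFunction κ P := by
  refine ⟨branch hk hP hcl, fun p => ?_⟩
  obtain ⟨t, ht⟩ := hP.nonempty _ p.2
  obtain ⟨s, hs, _, hsp⟩ := hP.splits _ p.2 t ht
  choose w hw hsw using hsp
  refine ⟨s.len, s.len_lt, fun b => cond hP p (w b) (hw b), fun b => cond_le _ _ _ _, bit,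
    bit_ne, fun b => ⟨s.len_lt, fun r hr h => ?_⟩⟩
  obtain ⟨_, _, hlw, v⟩ := hsw b
  rw [comp_val hr.2 h hlw, v]

/-- A `< κ`-closed tree forcing on `2^{<κ}` exists only for regular `κ`. -/
theorem regular_of_tree (hk : ℵ₀ ≤ κ) (hne : P.Nonempty) (hP : IsTreeForcing P)
    (hcl : LtClosed κ P) : κ.IsRegular := by
  by_contra hnr
  have hcof : κ.ord.cof < κ := by
    refine lt_of_le_of_ne (Ordinal.cof_ord_le κ) fun h => hnr ⟨hk, h.ge⟩
  obtain ⟨p0, hp0⟩ := hne
  let p : P := ⟨p0, hp0⟩
  have hex : ∀ q : P, ∃ s ∈ q.1, ∃ t0 ∈ q.1, ∃ t1 ∈ q.1, s.Snoc t0 false ∧ s.Snoc t1 true := by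
    intro q
    obtain ⟨t, ht⟩ := hP.nonempty _ q.2
    obtain ⟨s, hs, _, hsp⟩ := hP.splits _ q.2 t ht
    obtain ⟨t0, h0, h0'⟩ := hsp false
    obtain ⟨t1, h1, h1'⟩ := hsp true
    exact ⟨s, hs, t0, h0, t1, h1, h0', h1'⟩
  choose s hs t0 ht0 t1 ht1 h0 h1 using hex
  let step : Ordinal.{u} → P → P := fun _ q => cond hP q (t0 q) (ht0 q)
  have hstep : ∀ j q, step j q ≤ q := fun _ q => cond_le hP q _ _
  have hspec := fun i hi => chain_spec hcl step hstep p i hi
  -- the splitting node of a condition below a step is longer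
  have hlen : ∀ (q r : P), r ≤ cond hP q (t0 q) (ht0 q) → (s q).len < (s r).len := by
    intro q r hsub
    have hw := len_le_of_comp (w := t0 q) (h0 r) (h1 r) (hsub (ht0 _)).2 (hsub (ht1 _)).2
    exact lt_of_lt_of_le (h0 q).2.2.1 hw
  have hge : ∀ i, i < κ.ord → i ≤ (s (chain step p i)).len := by
    intro i
    induction i using WellFoundedLT.induction with
    | _ i ih =>
      intro hi
      refine le_of_forall_lt fun j hj => ?_
      exact lt_of_le_of_lt (ih j hj (lt_trans hj hi)) (hlen _ _ ((hspec i hi).2 j hj))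
  obtain ⟨f, hf⟩ := Ordinal.exists_isFundamentalSeq (o := κ.ord) rfl
  have hanti : Antitone (fun j : Set.Iio κ.ord.cof.ord => chain step p (f j).1) := by
    intro j k hjk
    rcases eq_or_lt_of_le hjk with h | h
    · subst h; exact le_refl _
    · have h2 : (f j).1 < (f k).1 := hf.strictMono h
      exact ((hspec (f k).1 (f k).2).2 (f j).1 h2).trans (hstep (f j).1 _)
  obtain ⟨q, hq⟩ := hcl κ.ord.cof.ord (Cardinal.ord_lt_ord.2 hcof) _ hanti
  have hall : ∀ i, i < κ.ord → i < (s q).len := by
    intro i hi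
    have hi1 : i + 1 < κ.ord := (Cardinal.isSuccLimit_ord hk).add_one_lt hi
    obtain ⟨_, ⟨j, rfl⟩, hj⟩ := hf.isCofinal_range ⟨i + 1, hi1⟩
    have hij : i < (f j).1 := Order.add_one_le_iff.1 hj
    have h2 : q ≤ step i (chain step p i) := (hq j).trans ((hspec (f j).1 (f j).2).2 i hij)
    exact lt_of_le_of_lt (hge i hi) (hlen _ _ h2)
  exact lt_irrefl _ (hall _ (s q).len_lt)

end tree

/-- Let `κ` be an uncountable cardinal (regular or singular).

1. If some tree forcing on `2^{<κ}` is `< κ`-closed, `κ^κ`-bounding and `κ⁺`-cc, then `κ` is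
   inaccessible.
2. If `κ^{<κ} = κ`, and some tree forcing on `2^{<κ}` is `< κ`-closed and `κ^κ`-bounding, then `κ` is
   inaccessible; no chain condition is needed.
3. If `κ` is regular, and some forcing notion `Q` (not necessarily consisting of trees) is
   `< κ`-closed, `κ^κ`-bounding and adds a new function from `κ` to `κ`, and `Q` is `κ⁺`-cc or
   `κ^{<κ} = κ`, then `κ` is inaccessible. -/
theorem result (κ : Cardinal.{u}) (hκ : ℵ₀ < κ) :
    (∀ P : Set (Set (Node κ)), P.Nonempty → IsTreeForcing P → LtClosed κ P → Bounding κ P →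
      SuccCC κ P → κ.IsInaccessible) ∧
    ((∀ c < κ, κ ^ c ≤ κ) → ∀ P : Set (Set (Node κ)), P.Nonempty → IsTreeForcing P →
      LtClosed κ P → Bounding κ P → κ.IsInaccessible) ∧
    (κ.IsRegular → ∀ (Q : Type v) [Preorder Q], Nonempty Q → LtClosed κ Q → Bounding κ Q →
      AddsFunction κ Q → (SuccCC κ Q ∨ ∀ c < κ, κ ^ c ≤ κ) → κ.IsInaccessible) := by
  have hmk : κ.IsRegular → (∀ c < κ, (2 : Cardinal.{u}) ^ c < κ) → κ.IsInaccessible :=
    fun hreg hs => ⟨hκ, hreg.cof_ord.ge, fun c hc => hs c hc⟩
  refine ⟨fun P hne hP hcl hb hcc => ?_, fun hpow P hne hP hcl hb => ?_,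
    fun hreg Q _ hQ hcl hb hadd hor => ?_⟩
  · have hreg := regular_of_tree hκ.le hne hP hcl
    have : Nonempty P := hne.to_subtype
    exact hmk hreg (strong_of_bounding hreg hcl (fewVals_of_cc hcc) hb (adds_of_tree hκ.le hP hcl))
  · have hreg := regular_of_tree hκ.le hne hP hcl
    have : Nonempty P := hne.to_subtype
    exact hmk hreg
      (strong_of_bounding hreg hcl (fewVals_of_power hpow) hb (adds_of_tree hκ.le hP hcl))
  · rcases hor with hcc | hpow
    · exact hmk hreg (strong_of_bounding hreg hcl (fewVals_of_cc hcc) hb hadd)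
    · exact hmk hreg (strong_of_bounding hreg hcl (fewVals_of_power hpow) hb hadd)

end Pool.Agent.Results.MP_c1fc37_lc.OnlyInaccessible
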